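import Mathlib

/-!
# A combinatorial inequality for three points in space
-/

set_option autoImplicit false

namespace Pool.Agent.H54Cop

open Finset

/-- the inequality for three points with distinct coordinates, given by their ranks -/
theorem comb_perm : ∀ ρ : Fin 3 → Equiv.Perm (Fin 3),
    (∑ σ : Equiv.Perm (Fin 3), ∑ j : Fin 3, if ∀ k, σ k ≠ j → ρ k j < ρ k (σ k) then 1 else 0) ≤
      (∑ σ : Equiv.Perm (Fin 3), if ∃ j, ∀ k, ρ k j ≤ ρ k (σ k) then 1 else 0) + 2 := by
  decide +kernel

/-- the inequality for arbitrary real coordinates -/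
theorem comb (x : Fin 3 → Fin 3 → ℕ) :
    (∑ σ : Equiv.Perm (Fin 3), ∑ j : Fin 3, if ∀ k, σ k ≠ j → x k j < x k (σ k) then 1 else 0) ≤
      (∑ σ : Equiv.Perm (Fin 3), if ∃ j, ∀ k, x k j ≤ x k (σ k) then 1 else 0) + 2 := by
  set ρ : Fin 3 → Equiv.Perm (Fin 3) := fun k => (Tuple.sort (x k)).symm with hρ
  have h1 : ∀ k i j, ρ k i ≤ ρ k j → x k i ≤ x k j := by
    intro k i j h
    have := Tuple.monotone_sort (x k) h
    simpa [hρ] using this
  have h2 : ∀ k i j, x k i < x k j → ρ k i < ρ k j := by
    intro k i j h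
    by_contra hc
    exact absurd (h1 k j i (not_lt.mp hc)) (not_le.mpr h)
  refine le_trans ?_ ((comb_perm ρ).trans ?_)
  · apply sum_le_sum
    intro σ _
    apply sum_le_sum
    intro j _
    split_ifs with a b b
    · exact le_rfl
    · exact absurd (fun k hk => h2 k _ _ (a k hk)) b
    · exact zero_le_one
    · exact le_rfl
  · apply Nat.add_le_add_right
    apply sum_le_sum
    intro σ _
    split_ifs with a b b
    · exact le_rfl
    · obtain ⟨j, hj⟩ := a
      exact absurd ⟨j, fun k => h1 k _ _ (hj k)⟩ b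
    · exact zero_le_one
    · exact le_rfl

end Pool.Agent.H54Cop
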