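import Pool.Agent.H54Cop.Upper

/-!
# Two sets on which a `3`-copula exceeds the two parts of the lower Frechet bound
-/

set_option autoImplicit false

namespace Pool.Agent.H54Cop

open MeasureTheory Finset Pool.Agent.Helper43.Copula Pool.Agent.Helper3.Cop

variable {N : ℕ}

/-- a copula at a grid point -/
theorem gp_eq {C : (Fin 3 → ℝ) → ℝ} (hC : IsCopula 3 C) (hN : 1 ≤ N) {b : Fin 3 → ℕ}
    (hb : ∀ k, b k ≤ N) :
    C (gp N b) = ∑ q : Cell N, if ∀ k, (q k : ℕ) < b k then wt C N q else 0 := by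
  have h1 := sum_cell_eq (N := N) (fun j => if ∀ k, j k < b k then mass C N j else 0)
  unfold wt
  rw [h1, ← sum_mass_le (by norm_num) hC hN hb, ← sum_filter]
  apply sum_congr _ fun _ _ => rfl
  ext j
  simp only [mem_filter, Fintype.mem_piFinset, mem_Ico, mem_range, zero_le, true_and]
  constructor
  · intro h
    exact ⟨fun k => (h k).trans_le (hb k), h⟩
  · intro h
    exact h.2

theorem sum_lt {w : Cell N → ℝ} (hw : Unif w) (k : Fin 3) (a : Fin N) :
    ∑ q : Cell N, (if q k < a then w q else 0) = (a : ℝ) / N := by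
  have h1 : ∀ q : Cell N, (if q k < a then w q else 0) =
      ∑ c : Fin N, if c < a then (if q k = c then w q else 0) else 0 := by
    intro q
    rw [sum_eq_single (q k)]
    · simp
    · intro c _ hc
      rw [if_neg (fun h : q k = c => hc h.symm)]
      simp
    · intro h; exact absurd (mem_univ _) h
  simp only [h1]
  rw [sum_comm]
  have h2 : ∀ c : Fin N, ∑ q : Cell N, (if c < a then (if q k = c then w q else 0) else 0) =
      if c < a then 1 / (N : ℝ) else 0 := by
    intro c
    split_ifs with h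
    · exact hw k c
    · simp
  simp only [h2]
  rw [← sum_filter, sum_const, nsmul_eq_mul]
  have h3 : (univ.filter fun c : Fin N => c < a) = Iio a := by
    ext c; simp
  rw [h3, Fin.card_Iio]
  ring

theorem ind_nonneg (a b c : Prop) [Decidable a] [Decidable b] [Decidable c] :
    (0 : ℝ) ≤ (if a ∧ b ∧ c then 1 else 0) + 2 -
      ((if a then 1 else 0) + (if b then 1 else 0) + (if c then 1 else 0)) := by
  by_cases ha : a <;> by_cases hb : b <;> by_cases hc : c <;> simp [ha, hb, hc] <;> norm_num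

/-- the excess over the linear part at a grid point -/
theorem excess {C : (Fin 3 → ℝ) → ℝ} (hC : IsCopula 3 C) (hN : 1 ≤ N) {c p : Cell N} {i k : Fin 3}
    (hik : i ≠ k) (hi : c i ≤ p i) (hk : c k ≤ p k) :
    (∑ l, ((c l : ℕ) : ℝ) / N) - 2 + wt C N p ≤ C (gp N (fun l => (c l : ℕ))) := by
  have hw := unif_wt hC hN
  rw [gp_eq hC hN (fun l => (c l).isLt.le), Fin.sum_univ_three, ← sum_lt hw 0 (c 0),
    ← sum_lt hw 1 (c 1), ← sum_lt hw 2 (c 2)]
  have h2 : (2 : ℝ) = ∑ q : Cell N, 2 * wt C N q := by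
    rw [← mul_sum, sum_total hw hN, mul_one]
  set A : Cell N → ℝ := fun q => (if q 0 < c 0 ∧ q 1 < c 1 ∧ q 2 < c 2 then 1 else 0) + 2 -
      ((if q 0 < c 0 then 1 else 0) + (if q 1 < c 1 then 1 else 0) +
        (if q 2 < c 2 then 1 else 0)) with hA
  have hA0 : ∀ q, 0 ≤ A q := fun q => ind_nonneg _ _ _
  have hAp : 1 ≤ A p := by
    rw [hA]
    have h3 : ¬ p i < c i := not_lt.mpr hi
    have h4 : ¬ p k < c k := not_lt.mpr hk
    have h5 : ∀ a : Prop, ∀ [Decidable a], (if a then (1 : ℝ) else 0) ≤ 1 := by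
      intro a _
      split_ifs <;> norm_num
    have h0 := h5 (p 0 < c 0)
    have h1 := h5 (p 1 < c 1)
    have h2' := h5 (p 2 < c 2)
    have h6 : (0 : ℝ) ≤ if p 0 < c 0 ∧ p 1 < c 1 ∧ p 2 < c 2 then 1 else 0 := by
      split_ifs <;> norm_num
    change 1 ≤ (if p 0 < c 0 ∧ p 1 < c 1 ∧ p 2 < c 2 then (1 : ℝ) else 0) + 2 -
      ((if p 0 < c 0 then 1 else 0) + (if p 1 < c 1 then 1 else 0) +
        (if p 2 < c 2 then 1 else 0))
    have h7 : (if p i < c i then (1 : ℝ) else 0) = 0 := if_neg h3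
    have h8 : (if p k < c k then (1 : ℝ) else 0) = 0 := if_neg h4
    fin_cases i <;> fin_cases k <;> first | exact absurd rfl hik | skip
    all_goals
      simp only [Fin.zero_eta, Fin.mk_one, Fin.reduceFinMk] at h7 h8
      linarith
  have h3 : wt C N p ≤ ∑ q : Cell N, wt C N q * A q := by
    have h4 := single_le_sum (f := fun q => wt C N q * A q)
      (fun q _ => mul_nonneg (wt_nonneg hC hN q) (hA0 q)) (mem_univ p)
    refine le_trans ?_ h4
    have := mul_le_mul_of_nonneg_left hAp (wt_nonneg hC hN p)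
    simpa using this
  have h4 : ∑ q : Cell N, wt C N q * A q =
      (∑ q : Cell N, if ∀ k, (q k : ℕ) < (c k : ℕ) then wt C N q else 0) +
        (∑ q : Cell N, 2 * wt C N q) -
      ((∑ q : Cell N, if q 0 < c 0 then wt C N q else 0) +
        (∑ q : Cell N, if q 1 < c 1 then wt C N q else 0) +
        (∑ q : Cell N, if q 2 < c 2 then wt C N q else 0)) := by
    rw [← sum_add_distrib, ← sum_add_distrib, ← sum_add_distrib, ← sum_sub_distrib]
    apply sum_congr rfl
    intro q _
    have h5 : (∀ k, (q k : ℕ) < (c k : ℕ)) ↔ (q 0 < c 0 ∧ q 1 < c 1 ∧ q 2 < c 2) := by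
      simp only [Fin.forall_fin_succ, Fin.lt_def]
      simp
    rw [hA]
    simp only [h5]
    by_cases a : q 0 < c 0 <;> by_cases b : q 1 < c 1 <;> by_cases d : q 2 < c 2 <;>
      simp [a, b, d] <;> ring
  rw [h4, ← h2] at h3
  linarith

/-- where the copula is larger than the linear part of the bound -/
def linSet (C : (Fin 3 → ℝ) → ℝ) : Set (Fin 3 → ℝ) := {x | x ∈ cube 3 ∧ ∑ k, x k - 2 < C x}

theorem measurableSet_linSet {C : (Fin 3 → ℝ) → ℝ} (hC : IsCopula 3 C) :
    MeasurableSet (linSet C) := by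
  have hc : ContinuousOn (fun x : Fin 3 → ℝ => C x - (∑ k, x k - 2)) (cube 3) :=
    (continuousOn_copula hC).sub (by fun_prop)
  have h1 : IsClosed {x | x ∈ cube 3 ∧ C x - (∑ k, x k - 2) ≤ 0} :=
    hc.preimage_isClosed_of_isClosed isClosed_cube isClosed_Iic
  have h2 : linSet C = cube 3 \ {x | x ∈ cube 3 ∧ C x - (∑ k, x k - 2) ≤ 0} := by
    ext x
    simp only [linSet, Set.mem_ofPred_eq, Set.mem_sdiff, not_and, not_le]
    constructor
    · rintro ⟨h3, h4⟩; exact ⟨h3, fun _ => by linarith⟩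
    · rintro ⟨h3, h4⟩; exact ⟨h3, by linarith [h4 h3]⟩
  rw [h2]
  exact isClosed_cube.measurableSet.diff h1.measurableSet

theorem linSet_subset (C : (Fin 3 → ℝ) → ℝ) : linSet C ⊆ cube 3 := fun _ hx => hx.1

theorem volume_linSet_ne_top (C : (Fin 3 → ℝ) → ℝ) : volume (linSet C) ≠ ⊤ := by
  refine ne_top_of_le_ne_top ?_ (measure_mono (linSet_subset C))
  rw [volume_cube]; simp

/-- the box below the lower corner of a cell -/
def bxd (N : ℕ) (c : Cell N) : Set (Fin 3 → ℝ) :=
  Set.univ.pi fun k => Set.Ico (((c k : ℕ) - 1 : ℝ) / N) (((c k : ℕ) : ℝ) / N)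

theorem volume_bxd (hN : 1 ≤ N) (c : Cell N) :
    volume (bxd N c) = ENNReal.ofReal ((1 / (N : ℝ)) ^ 3) := by
  have hN' : (0 : ℝ) < N := by exact_mod_cast hN
  unfold bxd
  rw [volume_pi_pi]
  have : ∀ k, volume (Set.Ico (((c k : ℕ) - 1 : ℝ) / N) (((c k : ℕ) : ℝ) / N)) =
      ENNReal.ofReal (1 / N) := by
    intro k
    rw [Real.volume_Ico]
    congr 1
    ring
  rw [prod_congr rfl fun k _ => this k, prod_const, card_univ, Fintype.card_fin,
    ENNReal.ofReal_pow (by positivity)]

theorem disjoint_bxd (hN : 1 ≤ N) {c d : Cell N} (h : c ≠ d) : Disjoint (bxd N c) (bxd N d) := by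
  have hN' : (0 : ℝ) < N := by exact_mod_cast hN
  rw [Set.disjoint_left]
  intro x hx hy
  apply h
  funext k
  have h1 := hx k (Set.mem_univ _)
  have h2 := hy k (Set.mem_univ _)
  obtain ⟨h3, h4⟩ := h1
  obtain ⟨h5, h6⟩ := h2
  rw [div_le_iff₀ hN'] at h3 h5
  rw [lt_div_iff₀ hN'] at h4 h6
  apply Fin.ext
  have h7 : ((c k : ℕ) : ℝ) < (d k : ℕ) + 1 := by linarith
  have h8 : ((d k : ℕ) : ℝ) < (c k : ℕ) + 1 := by linarith
  have h9 : (c k : ℕ) < (d k : ℕ) + 1 := by exact_mod_cast h7
  have h10 : (d k : ℕ) < (c k : ℕ) + 1 := by exact_mod_cast h8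
  omega

open Classical in
theorem cells_lin_le {C : (Fin 3 → ℝ) → ℝ} (hC : IsCopula 3 C) (hN : 1 ≤ N) :
    (∑ c : Cell N, if ∃ p : Cell N, 0 < wt C N p ∧ ∃ i k : Fin 3, i ≠ k ∧ c i ≤ p i ∧ c k ≤ p k
        then (1 / (N : ℝ)) ^ 3 else 0) ≤
      (volume (linSet C)).toReal + 3 / N := by
  have hN' : (0 : ℝ) < N := by exact_mod_cast hN
  set Q : Cell N → Prop := fun c => ∃ p : Cell N, 0 < wt C N p ∧ ∃ i k : Fin 3, i ≠ k ∧
    c i ≤ p i ∧ c k ≤ p k with hQ
  set G := univ.filter fun c : Cell N => Q c ∧ ∀ k, 0 < (c k : ℕ) with hG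
  have h1 : (∑ c ∈ G, (1 / (N : ℝ)) ^ 3) ≤ (volume (linSet C)).toReal := by
    have h2 : (⋃ c ∈ G, bxd N c) ⊆ linSet C := by
      intro x hx
      simp only [Set.mem_iUnion] at hx
      obtain ⟨c, hc, hx⟩ := hx
      rw [hG, mem_filter] at hc
      obtain ⟨-, ⟨p, hp, i, k, hik, hi, hk⟩, hc2⟩ := hc
      have hxk : ∀ k, ((c k : ℕ) - 1 : ℝ) / N ≤ x k ∧ x k < ((c k : ℕ) : ℝ) / N :=
        fun k => hx k (Set.mem_univ _)
      have hcube : x ∈ cube 3 := by
        intro l
        refine ⟨le_trans (div_nonneg ?_ hN'.le) (hxk l).1, (hxk l).2.le.trans ?_⟩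
        · have : (1 : ℝ) ≤ ((c l : ℕ) : ℝ) := by exact_mod_cast hc2 l
          linarith
        · rw [div_le_one hN']
          exact_mod_cast (c l).isLt.le
      refine ⟨hcube, ?_⟩
      have h3 := excess hC hN hik hi hk
      have h4 : gp N (fun l => (c l : ℕ)) ∈ cube 3 := gp_mem_cube hN fun l => (c l).isLt.le
      have h5 := lip hC h4 hcube
      have h6 : ∑ l, |gp N (fun l => (c l : ℕ)) l - x l| =
          (∑ l, ((c l : ℕ) : ℝ) / N) - ∑ l, x l := by
        rw [← sum_sub_distrib]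
        apply sum_congr rfl
        intro l _
        unfold gp
        rw [abs_of_nonneg]
        linarith [(hxk l).2]
      rw [h6] at h5
      have h7 := (abs_le.mp h5).2
      linarith
    have h3 := measure_mono (μ := volume) h2
    rw [measure_biUnion_finset (fun c _ d _ hcd => disjoint_bxd hN hcd)
      (fun c _ => MeasurableSet.univ_pi fun k => measurableSet_Ico)] at h3
    rw [sum_congr rfl fun c _ => volume_bxd hN c, ← ENNReal.ofReal_sum_of_nonneg
      (fun c _ => by positivity)] at h3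
    exact (ENNReal.ofReal_le_iff_le_toReal (volume_linSet_ne_top C)).mp h3
  set a : Fin N := ⟨0, hN⟩ with ha
  have h4 : (∑ c : Cell N, if Q c then (1 / (N : ℝ)) ^ 3 else 0) ≤
      (∑ c ∈ G, (1 / (N : ℝ)) ^ 3) +
        ∑ k : Fin 3, ∑ c : Cell N, if c k = a then (1 / (N : ℝ)) ^ 3 else 0 := by
    rw [hG, sum_filter, sum_comm, ← sum_add_distrib]
    apply sum_le_sum
    intro c _
    have hpos : (0 : ℝ) ≤ (1 / (N : ℝ)) ^ 3 := by positivity
    have hsum : 0 ≤ ∑ k : Fin 3, if c k = a then (1 / (N : ℝ)) ^ 3 else 0 :=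
      sum_nonneg fun k _ => by split_ifs <;> [exact hpos; exact le_rfl]
    by_cases hc : Q c
    · rw [if_pos hc]
      by_cases hk : ∀ k, 0 < (c k : ℕ)
      · rw [if_pos ⟨hc, hk⟩]
        linarith
      · rw [if_neg (fun h => hk h.2)]
        push Not at hk
        obtain ⟨k, hk⟩ := hk
        have hka : c k = a := by
          apply Fin.ext
          simp only [ha]
          omega
        rw [zero_add]
        refine le_trans ?_ (single_le_sum (f := fun k => if c k = a then (1 / (N : ℝ)) ^ 3 else 0)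
          (fun k _ => by split_ifs <;> [exact hpos; exact le_rfl]) (mem_univ k))
        simp only [if_pos hka, le_refl]
    · rw [if_neg hc]
      have : (0 : ℝ) ≤ if Q c ∧ ∀ k, 0 < (c k : ℕ)
          then (1 / (N : ℝ)) ^ 3 else 0 := by split_ifs <;> [exact hpos; exact le_rfl]
      linarith
  have h5 : ∀ k : Fin 3, (∑ c : Cell N, if c k = a then (1 / (N : ℝ)) ^ 3 else (0 : ℝ)) =
      1 / (N : ℝ) := by
    intro k
    rw [← sum_filter, sum_const, nsmul_eq_mul, card_face]
    field_simp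
  have h7 : ∑ _k : Fin 3, 1 / (N : ℝ) = 3 / N := by
    rw [Fin.sum_univ_three]
    ring
  rw [sum_congr rfl fun k _ => h5 k, h7] at h4
  linarith

/-- the two volumes and the probability of one or two of the three events -/
theorem sum_volumes {C : (Fin 3 → ℝ) → ℝ} (hC : IsCopula 3 C) (hN : 1 ≤ N) :
    1 + ∑ P : Fin 3 → Cell N, (∏ i, wt C N (P i)) *
      (if (∃ j, ∀ k, k ≠ j → P j k ≤ P k k) ∧ (∃ i, ¬ ∀ k, k ≠ i → P i k ≤ P k k) then 1 else 0) ≤
      (volume (posSet 3 C)).toReal + (volume (linSet C)).toReal + 6 / N := by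
  classical
  have hN' : (0 : ℝ) < N := by exact_mod_cast hN
  have hw := unif_wt hC hN
  have h1 := cells_le hC hN
  have h2 := cells_lin_le hC hN
  have h3 := sum_diag hw (fun c => if 0 < C (gp N (fun k => (c k : ℕ) + 1)) then (1 : ℝ) else 0)
  have h4 := sum_diag hw (fun c => if ∃ p : Cell N, 0 < wt C N p ∧ ∃ i k : Fin 3, i ≠ k ∧
    c i ≤ p i ∧ c k ≤ p k then (1 : ℝ) else 0)
  have h5 : ∑ P : Fin 3 → Cell N, (∏ i, wt C N (P i)) * (1 : ℝ) = 1 := by
    rw [← sum_mul, sum_pi_prod (fun _ q => wt C N q)]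
    simp [sum_total hw hN]
  simp only [ite_mul, one_mul, zero_mul] at h3 h4
  rw [← h3] at h1
  rw [← h4] at h2
  have h6 : (6 : ℝ) / N = 3 / N + 3 / N := by ring
  rw [h6]
  have key : ∑ P : Fin 3 → Cell N, (∏ i, wt C N (P i)) * (1 : ℝ) +
      ∑ P : Fin 3 → Cell N, (∏ i, wt C N (P i)) *
      (if (∃ j, ∀ k, k ≠ j → P j k ≤ P k k) ∧ (∃ i, ¬ ∀ k, k ≠ i → P i k ≤ P k k) then 1 else 0) ≤
      ∑ P : Fin 3 → Cell N, (∏ i, wt C N (P i)) *
        (if 0 < C (gp N (fun k => (P k k : ℕ) + 1)) then (1 : ℝ) else 0) +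
      ∑ P : Fin 3 → Cell N, (∏ i, wt C N (P i)) *
        (if ∃ p : Cell N, 0 < wt C N p ∧ ∃ i k : Fin 3, i ≠ k ∧
          P i i ≤ p i ∧ P k k ≤ p k then (1 : ℝ) else 0) := by
    rw [← sum_add_distrib, ← sum_add_distrib]
    apply sum_le_sum
    intro P _
    rw [← mul_add, ← mul_add]
    have hp : 0 ≤ ∏ i, wt C N (P i) := prod_nonneg fun i _ => wt_nonneg hC hN _
    rcases hp.eq_or_lt with h | h
    · rw [← h]; simp
    have hpos : ∀ i, 0 < wt C N (P i) := by
      intro i
      rcases (wt_nonneg hC hN (P i)).eq_or_lt with h1 | h1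
      · exfalso
        rw [prod_eq_zero (mem_univ i) h1.symm] at h
        exact lt_irrefl _ h
      · exact h1
    apply mul_le_mul_of_nonneg_left _ hp
    have a1 : (∃ j, ∀ k, k ≠ j → P j k ≤ P k k) → 0 < C (gp N (fun k => (P k k : ℕ) + 1)) := by
      rintro ⟨j, hj⟩
      refine lt_of_lt_of_le (hpos j) ((mass_le (by norm_num) hC hN fun k => (P j k).isLt).trans ?_)
      apply copula_mono hC (gp_mem_cube hN fun k => (P j k).isLt)
        (gp_mem_cube hN fun k => (P k k).isLt)
      intro k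
      unfold gp
      apply div_le_div_of_nonneg_right _ hN'.le
      have : P j k ≤ P k k := by
        rcases eq_or_ne k j with rfl | hkj
        · exact le_rfl
        · exact hj k hkj
      have := Fin.le_def.mp this
      exact_mod_cast Nat.add_le_add_right this 1
    have a2 : (∃ i, ¬ ∀ k, k ≠ i → P i k ≤ P k k) → ∃ p : Cell N, 0 < wt C N p ∧
        ∃ i k : Fin 3, i ≠ k ∧ P i i ≤ p i ∧ P k k ≤ p k := by
      rintro ⟨i, hi⟩
      push Not at hi
      obtain ⟨k, hk, hk2⟩ := hi
      exact ⟨P i, hpos i, i, k, hk.symm, le_rfl, hk2.le⟩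
    by_cases b1 : ∃ j, ∀ k, k ≠ j → P j k ≤ P k k
    · by_cases b2 : ∃ i, ¬ ∀ k, k ≠ i → P i k ≤ P k k
      · rw [if_pos ⟨b1, b2⟩, if_pos (a1 b1), if_pos (a2 b2)]
      · rw [if_neg (fun h => b2 h.2), if_pos (a1 b1)]
        have : (0 : ℝ) ≤ if ∃ p : Cell N, 0 < wt C N p ∧ ∃ i k : Fin 3, i ≠ k ∧
          P i i ≤ p i ∧ P k k ≤ p k then (1 : ℝ) else 0 := by split_ifs <;> norm_num
        linarith
    · have b2 : ∃ i, ¬ ∀ k, k ≠ i → P i k ≤ P k k := by
        push Not at b1 ⊢
        exact ⟨0, b1 0⟩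
      rw [if_neg (fun h => b1 h.1), if_pos (a2 b2)]
      have : (0 : ℝ) ≤ if 0 < C (gp N (fun k => (P k k : ℕ) + 1)) then (1 : ℝ) else 0 := by
        split_ifs <;> norm_num
      linarith
  rw [h5] at key
  linarith

/-- the upper bound for `s_3` from a lower bound for the probability of one or two events -/
theorem three_le {K : ℝ} (hB : ∀ M : ℕ, 1 ≤ M → ∀ w : Cell (3 * M) → ℝ, Unif w → (∀ p, 0 ≤ w p) →
    11 / 54 - K / M ≤ ∑ P : Fin 3 → Cell (3 * M), (∏ i, w (P i)) *
      (if (∃ j, ∀ k, k ≠ j → P j k ≤ P k k) ∧ (∃ i, ¬ ∀ k, k ≠ i → P i k ≤ P k k) then 1 else 0)) :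
    (maxAgreement 3).toReal ≤ 43 / 54 := by
  have h1 : maxAgreement 3 ≤ ENNReal.ofReal (43 / 54) := by
    unfold maxAgreement
    apply sSup_le
    rintro m ⟨A, hA, -, ⟨C, hC, hAC⟩, rfl⟩
    set u := (volume (posSet 3 C)).toReal with hu
    set v := (volume (linSet C)).toReal with hv
    have hu1 : u ≤ 1 := by
      have := measure_mono (μ := volume) (posSet_subset C)
      rw [volume_cube] at this
      have := ENNReal.toReal_mono (by simp) this
      simpa using this
    have hv1 : v ≤ 1 := by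
      have := measure_mono (μ := volume) (linSet_subset C)
      rw [volume_cube] at this
      have := ENNReal.toReal_mono (by simp) this
      simpa using this
    have huv : 65 / 54 ≤ u + v := by
      have key : ∀ M : ℕ, 1 ≤ M → 65 / 54 - (K + 2) / M ≤ u + v := by
        intro M hM
        have hM' : (0 : ℝ) < M := by exact_mod_cast hM
        have hN : 1 ≤ 3 * M := by omega
        have h2 := hB M hM (wt C (3 * M)) (unif_wt hC hN) (wt_nonneg hC hN)
        have h3 := sum_volumes hC hN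
        have h4 : (6 : ℝ) / ((3 * M : ℕ) : ℝ) = 2 / M := by
          push_cast
          field_simp
          norm_num
        rw [h4] at h3
        have h5 : (K + 2) / M = K / M + 2 / (M : ℝ) := by ring
        rw [h5]
        linarith
      by_contra hcon
      push Not at hcon
      have hd : 0 < 65 / 54 - (u + v) := by linarith
      obtain ⟨M, hM⟩ := exists_nat_gt (|K + 2| / (65 / 54 - (u + v)))
      have hM0 : (0 : ℝ) < M := lt_of_le_of_lt (by positivity) hM
      have hM1 : 1 ≤ M := by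
        have : 0 < M := by exact_mod_cast hM0
        omega
      have h1 := key M hM1
      rw [div_lt_iff₀ hd] at hM
      have h2 : (K + 2) / (M : ℝ) < 65 / 54 - (u + v) := by
        rw [div_lt_iff₀ hM0]
        have := le_abs_self (K + 2)
        linarith
      linarith
    have hsub : A ⊆ (cube 3 \ posSet 3 C) ∪ (cube 3 \ linSet C) := by
      intro x hx
      have h1 := hAC x hx
      unfold lowerFrechet at h1
      rcases le_total (∑ k, x k - (3 : ℕ) + 1) 0 with h2 | h2
      · left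
        rw [max_eq_right h2] at h1
        exact ⟨hA hx, fun h => by have := h.2; rw [h1] at this; exact lt_irrefl _ this⟩
      · right
        rw [max_eq_left h2] at h1
        refine ⟨hA hx, fun h => ?_⟩
        have := h.2
        rw [h1] at this
        push_cast at this
        linarith
    have h1 : volume (cube 3 \ posSet 3 C) ≤ ENNReal.ofReal (1 - u) := by
      rw [measure_sdiff (posSet_subset C) (measurableSet_posSet hC).nullMeasurableSet
        (volume_posSet_ne_top C), volume_cube, ENNReal.ofReal_sub _ ENNReal.toReal_nonneg,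
        ENNReal.ofReal_one, ENNReal.ofReal_toReal (volume_posSet_ne_top C)]
    have h2 : volume (cube 3 \ linSet C) ≤ ENNReal.ofReal (1 - v) := by
      rw [measure_sdiff (linSet_subset C) (measurableSet_linSet hC).nullMeasurableSet
        (volume_linSet_ne_top C), volume_cube, ENNReal.ofReal_sub _ ENNReal.toReal_nonneg,
        ENNReal.ofReal_one, ENNReal.ofReal_toReal (volume_linSet_ne_top C)]
    calc volume A ≤ volume ((cube 3 \ posSet 3 C) ∪ (cube 3 \ linSet C)) := measure_mono hsub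
      _ ≤ volume (cube 3 \ posSet 3 C) + volume (cube 3 \ linSet C) := measure_union_le _ _
      _ ≤ ENNReal.ofReal (1 - u) + ENNReal.ofReal (1 - v) := add_le_add h1 h2
      _ = ENNReal.ofReal ((1 - u) + (1 - v)) := by
          rw [← ENNReal.ofReal_add (by linarith) (by linarith)]
      _ ≤ ENNReal.ofReal (43 / 54) := ENNReal.ofReal_le_ofReal (by linarith)
  have h2 := ENNReal.toReal_mono ENNReal.ofReal_ne_top h1
  rwa [ENNReal.toReal_ofReal (by norm_num)] at h2

end Pool.Agent.H54Cop
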