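import Pool.Agent.H54Cop.Comb

/-!
# Sampling three cells

`w` is a probability distribution on the cells of the grid `[N]^3` with uniform margins.  For three
independent cells `P 0`, `P 1`, `P 2` the mixed cell `(P 0 0, P 1 1, P 2 2)` is uniformly
distributed.
-/

set_option autoImplicit false

namespace Pool.Agent.H54Cop

open Finset

variable {N : ℕ}

/-- the cells of the grid -/
abbrev Cell (N : ℕ) := Fin 3 → Fin N

/-- uniform margins -/
def Unif (w : Cell N → ℝ) : Prop :=
  ∀ (k : Fin 3) (c : Fin N), ∑ p : Cell N, (if p k = c then w p else 0) = 1 / N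

theorem sum_pi_prod {m : ℕ} (g : Fin m → Cell N → ℝ) :
    ∑ Q : Fin m → Cell N, ∏ l, g l (Q l) = ∏ l, ∑ q, g l q := by
  rw [Finset.prod_univ_sum, Fintype.piFinset_univ]

theorem sum_diag {w : Cell N → ℝ} (hw : Unif w) (f : Cell N → ℝ) :
    ∑ P : Fin 3 → Cell N, (∏ i, w (P i)) * f (fun k => P k k) =
      ∑ c : Cell N, f c * (1 / (N : ℝ)) ^ 3 := by
  calc ∑ P : Fin 3 → Cell N, (∏ i, w (P i)) * f (fun k => P k k)
      = ∑ P : Fin 3 → Cell N, ∑ c : Cell N,
          f c * ∏ i, (if P i i = c i then w (P i) else 0) := by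
        apply sum_congr rfl
        intro P _
        rw [sum_eq_single (fun k => P k k)]
        · simp only [if_true]
          ring
        · intro c _ hc
          obtain ⟨i, hi⟩ : ∃ i, P i i ≠ c i := by
            by_contra h
            push Not at h
            exact hc (funext fun i => (h i).symm)
          rw [prod_eq_zero (mem_univ i) (if_neg hi), mul_zero]
        · intro h
          exact absurd (mem_univ _) h
    _ = ∑ c : Cell N, f c * ∑ P : Fin 3 → Cell N, ∏ i, (if P i i = c i then w (P i) else 0) := by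
        rw [sum_comm]
        apply sum_congr rfl
        intro c _
        rw [mul_sum]
    _ = _ := by
        apply sum_congr rfl
        intro c _
        rw [sum_pi_prod (fun i q => if q i = c i then w q else 0)]
        simp only [hw _ _]
        rw [prod_const, card_univ, Fintype.card_fin]

theorem sum_gt {w : Cell N → ℝ} (hw : Unif w) (k : Fin 3) (a : Fin N) :
    ∑ q : Cell N, (if a < q k then w q else 0) = ((N : ℝ) - 1 - a) / N := by
  have h1 : ∀ q : Cell N, (if a < q k then w q else 0) =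
      ∑ c : Fin N, if a < c then (if q k = c then w q else 0) else 0 := by
    intro q
    rw [sum_eq_single (q k)]
    · simp
    · intro c _ hc
      rw [if_neg (fun h : q k = c => hc h.symm)]
      simp
    · intro h; exact absurd (mem_univ _) h
  simp only [h1]
  rw [sum_comm]
  have h2 : ∀ c : Fin N, ∑ q : Cell N, (if a < c then (if q k = c then w q else 0) else 0) =
      if a < c then 1 / (N : ℝ) else 0 := by
    intro c
    split_ifs with h
    · exact hw k c
    · simp
  simp only [h2]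
  rw [← sum_filter, sum_const, nsmul_eq_mul]
  have h3 : (univ.filter fun c : Fin N => a < c) = Ioi a := by
    ext c; simp
  rw [h3, Fin.card_Ioi]
  have := a.isLt
  rw [Nat.cast_sub (by omega), Nat.cast_sub (by omega)]
  push_cast
  ring

theorem sum_total {w : Cell N → ℝ} (hw : Unif w) (hN : 1 ≤ N) : ∑ p, w p = 1 := by
  have hN' : (0 : ℝ) < N := by exact_mod_cast hN
  have h1 : ∀ q : Cell N, w q = ∑ c : Fin N, if q 0 = c then w q else 0 := by
    intro q
    simp
  rw [sum_congr rfl fun q _ => h1 q, sum_comm, sum_congr rfl fun c _ => hw 0 c]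
  rw [sum_const, card_univ, Fintype.card_fin, nsmul_eq_mul]
  field_simp

theorem sum_side {w : Cell N → ℝ} (hw : Unif w) (i : Fin 3) :
    ∑ P : Fin 3 → Cell N, (∏ j, w (P j)) * (if ∀ k, k ≠ i → P i k < P k k then 1 else 0) =
      ∑ p : Cell N, w p * ∏ l : Fin 2, (((N : ℝ) - 1 - p (i.succAbove l)) / N) := by
  rw [← (Fin.insertNthEquiv (fun _ => Cell N) i).sum_comp, Fintype.sum_prod_type]
  apply sum_congr rfl
  intro p _
  have h1 : ∀ Q : Fin 2 → Cell N,
      (∏ j, w ((Fin.insertNthEquiv (fun _ => Cell N) i) (p, Q) j)) *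
        (if ∀ k, k ≠ i → (Fin.insertNthEquiv (fun _ => Cell N) i) (p, Q) i k <
          (Fin.insertNthEquiv (fun _ => Cell N) i) (p, Q) k k then 1 else 0) =
      w p * ∏ l : Fin 2, (if p (i.succAbove l) < Q l (i.succAbove l) then w (Q l) else 0) := by
    intro Q
    rw [Fin.prod_univ_succAbove _ i]
    simp only [Fin.insertNthEquiv_apply, Fin.insertNth_apply_same, Fin.insertNth_apply_succAbove]
    rw [mul_assoc]
    congr 1
    by_cases h : ∀ k, k ≠ i → p k < (i.insertNth p Q : Fin 3 → Cell N) k k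
    · rw [if_pos h, mul_one]
      apply prod_congr rfl
      intro l _
      have := h (i.succAbove l) (Fin.succAbove_ne i l)
      rw [Fin.insertNth_apply_succAbove] at this
      rw [if_pos this]
    · rw [if_neg h, mul_zero]
      push Not at h
      obtain ⟨k, hk, hk2⟩ := h
      obtain ⟨l, rfl⟩ := Fin.exists_succAbove_eq hk
      rw [Fin.insertNth_apply_succAbove] at hk2
      rw [prod_eq_zero (mem_univ l) (if_neg (not_lt.mpr hk2))]
  rw [sum_congr rfl fun Q _ => h1 Q, ← mul_sum]
  congr 1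
  rw [sum_pi_prod (fun l q => if p (i.succAbove l) < q (i.succAbove l) then w q else 0)]
  apply prod_congr rfl
  intro l _
  exact sum_gt hw _ _

theorem sum_reindex (σ : Equiv.Perm (Fin 3)) (F : (Fin 3 → Cell N) → ℝ) :
    ∑ P : Fin 3 → Cell N, F (fun i => P (σ i)) = ∑ P, F P :=
  (Equiv.arrowCongr σ.symm (Equiv.refl (Cell N))).sum_comp F

/-- The sampling inequality. -/
theorem sample {w : Cell N → ℝ} (hw : Unif w) (h0 : ∀ p, 0 ≤ w p) (hN : 1 ≤ N)
    (I : Cell N → Prop) [DecidablePred I]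
    (hI : ∀ p c : Cell N, 0 < w p → (∀ k, p k ≤ c k) → I c) :
    ∑ i : Fin 3, ∑ p : Cell N, w p * ∏ l : Fin 2, (((N : ℝ) - 1 - p (i.succAbove l)) / N) ≤
      (∑ c : Cell N, if I c then (1 / (N : ℝ)) ^ 3 else 0) + 1 / 3 := by
  classical
  have key : ∀ P : Fin 3 → Cell N,
      (∏ i, w (P i)) * (∑ σ : Equiv.Perm (Fin 3), ∑ j : Fin 3,
        if ∀ k, σ k ≠ j → P j k < P (σ k) k then (1 : ℝ) else 0) ≤
      (∏ i, w (P i)) * ((∑ σ : Equiv.Perm (Fin 3),
        if I (fun k => P (σ k) k) then (1 : ℝ) else 0) + 2) := by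
    intro P
    have hp : 0 ≤ ∏ i, w (P i) := prod_nonneg fun i _ => h0 _
    rcases hp.eq_or_lt with h | h
    · rw [← h]; simp
    have hpos : ∀ i, 0 < w (P i) := by
      intro i
      rcases (h0 (P i)).eq_or_lt with h1 | h1
      · exfalso
        rw [prod_eq_zero (mem_univ i) h1.symm] at h
        exact lt_irrefl _ h
      · exact h1
    apply mul_le_mul_of_nonneg_left _ hp
    have h1 := comb (fun k i => (P i k : ℕ))
    have h2 : (∑ σ : Equiv.Perm (Fin 3), if ∃ j, ∀ k, (P j k : ℕ) ≤ (P (σ k) k : ℕ) then 1 else 0) ≤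
        (∑ σ : Equiv.Perm (Fin 3), if I (fun k => P (σ k) k) then 1 else 0) := by
      apply sum_le_sum
      intro σ _
      split_ifs with a b b
      · exact le_rfl
      · obtain ⟨j, hj⟩ := a
        exact absurd (hI (P j) _ (hpos j) (fun k => Fin.le_def.mpr (hj k))) b
      · exact zero_le_one
      · exact le_rfl
    have h3 := h1.trans (Nat.add_le_add_right h2 2)
    have h4 : ((∑ σ : Equiv.Perm (Fin 3), ∑ j : Fin 3,
        if ∀ k, σ k ≠ j → (P j k : ℕ) < (P (σ k) k : ℕ) then 1 else 0 : ℕ) : ℝ) ≤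
        (((∑ σ : Equiv.Perm (Fin 3), if I (fun k => P (σ k) k) then 1 else 0) + 2 : ℕ) : ℝ) := by
      exact_mod_cast h3
    push_cast at h4
    exact h4
  have hsum := sum_le_sum fun P (_ : P ∈ (univ : Finset (Fin 3 → Cell N))) => key P
  -- the left side
  have hL : ∑ P : Fin 3 → Cell N, (∏ i, w (P i)) * (∑ σ : Equiv.Perm (Fin 3), ∑ j : Fin 3,
        if ∀ k, σ k ≠ j → P j k < P (σ k) k then (1 : ℝ) else 0) =
      6 * ∑ i : Fin 3, ∑ p : Cell N,
        w p * ∏ l : Fin 2, (((N : ℝ) - 1 - p (i.succAbove l)) / N) := by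
    have h1 : ∀ σ : Equiv.Perm (Fin 3), ∑ P : Fin 3 → Cell N, ∑ j : Fin 3,
        (∏ i, w (P i)) * (if ∀ k, σ k ≠ j → P j k < P (σ k) k then (1 : ℝ) else 0) =
        ∑ i : Fin 3, ∑ p : Cell N,
          w p * ∏ l : Fin 2, (((N : ℝ) - 1 - p (i.succAbove l)) / N) := by
      intro σ
      rw [sum_comm, ← Equiv.sum_comp σ]
      apply sum_congr rfl
      intro i _
      have h3 := sum_reindex σ (fun P : Fin 3 → Cell N =>
        (∏ j, w (P j)) * (if ∀ k, k ≠ i → P i k < P k k then (1 : ℝ) else 0))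
      rw [← sum_side hw i, ← h3]
      apply sum_congr rfl
      intro P _
      have e1 : ∏ j, w (P (σ j)) = ∏ j, w (P j) := Equiv.prod_comp σ (fun j => w (P j))
      simp only [e1, ne_eq, EmbeddingLike.apply_eq_iff_eq]
    calc ∑ P : Fin 3 → Cell N, (∏ i, w (P i)) * (∑ σ : Equiv.Perm (Fin 3), ∑ j : Fin 3,
        if ∀ k, σ k ≠ j → P j k < P (σ k) k then (1 : ℝ) else 0)
        = ∑ σ : Equiv.Perm (Fin 3), ∑ P : Fin 3 → Cell N, ∑ j : Fin 3,
          (∏ i, w (P i)) * (if ∀ k, σ k ≠ j → P j k < P (σ k) k then (1 : ℝ) else 0) := by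
          simp_rw [mul_sum]
          rw [sum_comm]
      _ = ∑ _σ : Equiv.Perm (Fin 3), ∑ i : Fin 3, ∑ p : Cell N,
          w p * ∏ l : Fin 2, (((N : ℝ) - 1 - p (i.succAbove l)) / N) :=
          sum_congr rfl fun σ _ => h1 σ
      _ = _ := by
          rw [sum_const, card_univ, Fintype.card_perm, Fintype.card_fin, nsmul_eq_mul]
          norm_num [Nat.factorial]
  have hR : ∑ P : Fin 3 → Cell N, (∏ i, w (P i)) * ((∑ σ : Equiv.Perm (Fin 3),
        if I (fun k => P (σ k) k) then (1 : ℝ) else 0) + 2) =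
      6 * (∑ c : Cell N, if I c then (1 / (N : ℝ)) ^ 3 else 0) + 2 := by
    have h1 : ∀ σ : Equiv.Perm (Fin 3), ∑ P : Fin 3 → Cell N,
        (∏ i, w (P i)) * (if I (fun k => P (σ k) k) then (1 : ℝ) else 0) =
        ∑ c : Cell N, if I c then (1 / (N : ℝ)) ^ 3 else 0 := by
      intro σ
      have h2 := sum_diag hw (fun c => if I c then (1 : ℝ) else 0)
      have h3 := sum_reindex σ (fun P : Fin 3 → Cell N =>
        (∏ j, w (P j)) * (if I (fun k => P k k) then (1 : ℝ) else 0))
      rw [← h3] at h2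
      have e1 : ∀ P : Fin 3 → Cell N, ∏ j, w (P (σ j)) = ∏ j, w (P j) :=
        fun P => Equiv.prod_comp σ (fun j => w (P j))
      simp only [e1] at h2
      rw [h2]
      apply sum_congr rfl
      intro c _
      split_ifs <;> simp
    have h3 : ∑ P : Fin 3 → Cell N, (∏ i, w (P i)) * (2 : ℝ) = 2 := by
      rw [← sum_mul, sum_pi_prod (fun _ q => w q)]
      simp [sum_total hw hN]
    calc ∑ P : Fin 3 → Cell N, (∏ i, w (P i)) * ((∑ σ : Equiv.Perm (Fin 3),
        if I (fun k => P (σ k) k) then (1 : ℝ) else 0) + 2)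
        = (∑ σ : Equiv.Perm (Fin 3), ∑ P : Fin 3 → Cell N,
          (∏ i, w (P i)) * (if I (fun k => P (σ k) k) then (1 : ℝ) else 0)) +
          ∑ P : Fin 3 → Cell N, (∏ i, w (P i)) * (2 : ℝ) := by
          simp_rw [mul_add, mul_sum]
          rw [sum_add_distrib, sum_comm]
      _ = (∑ _σ : Equiv.Perm (Fin 3), ∑ c : Cell N, if I c then (1 / (N : ℝ)) ^ 3 else 0) + 2 := by
          rw [h3, sum_congr rfl fun σ _ => h1 σ]
      _ = _ := by
          rw [sum_const, card_univ, Fintype.card_perm, Fintype.card_fin, nsmul_eq_mul]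
          norm_num [Nat.factorial]
  rw [hL, hR] at hsum
  linarith

end Pool.Agent.H54Cop
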