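import Pool.Agent.H54Cop.Sample
import Pool.Agent.Helper3.Cop.Bound

/-!
# A `3`-copula is positive on a set of volume at least `7/24`
-/

set_option autoImplicit false

namespace Pool.Agent.H54Cop

open MeasureTheory Finset Pool.Agent.Helper43.Copula Pool.Agent.Helper3.Cop

variable {N : ℕ}

/-- the cell masses of a copula -/
noncomputable def wt (C : (Fin 3 → ℝ) → ℝ) (N : ℕ) (p : Cell N) : ℝ := mass C N (fun k => (p k : ℕ))

theorem sum_cell_eq (f : (Fin 3 → ℕ) → ℝ) :
    ∑ p : Cell N, f (fun k => (p k : ℕ)) = ∑ j ∈ Fintype.piFinset (fun _ : Fin 3 => range N), f j := by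
  apply sum_bij (fun (p : Cell N) _ => (fun k => (p k : ℕ)))
  · intro p _
    rw [Fintype.mem_piFinset]
    exact fun k => mem_range.mpr (p k).isLt
  · intro p _ q _ h
    funext k
    exact Fin.ext (congrFun h k)
  · intro j hj
    rw [Fintype.mem_piFinset] at hj
    exact ⟨fun k => ⟨j k, mem_range.mp (hj k)⟩, mem_univ _, rfl⟩
  · intro p _
    rfl

theorem unif_wt {C : (Fin 3 → ℝ) → ℝ} (hC : IsCopula 3 C) (hN : 1 ≤ N) : Unif (wt C N) := by
  intro k c
  have h1 := sum_mass_slab (by norm_num : 1 ≤ 3) hC hN k c.isLt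
  rw [← h1, sum_filter, ← sum_cell_eq]
  apply sum_congr rfl
  intro p _
  unfold wt
  by_cases h : p k = c
  · rw [if_pos h, if_pos (show ((p k : Fin N) : ℕ) = c from congrArg _ h)]
  · rw [if_neg h, if_neg (fun h' => h (Fin.ext h'))]

theorem wt_nonneg {C : (Fin 3 → ℝ) → ℝ} (hC : IsCopula 3 C) (hN : 1 ≤ N) (p : Cell N) :
    0 ≤ wt C N p := mass_nonneg hC hN fun k => (p k).isLt

theorem mean_eq {w : Cell N → ℝ} (hw : Unif w) (k : Fin 3) (g : Fin N → ℝ) :
    ∑ p : Cell N, w p * g (p k) = (∑ c, g c) / N := by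
  have h1 : ∀ q : Cell N, w q * g (q k) = ∑ c : Fin N, g c * (if q k = c then w q else 0) := by
    intro q
    rw [sum_eq_single (q k)]
    · simp [mul_comm]
    · intro c _ hc
      rw [if_neg (fun h : q k = c => hc h.symm), mul_zero]
    · intro h; exact absurd (mem_univ _) h
  rw [sum_congr rfl fun q _ => h1 q, sum_comm]
  simp_rw [← mul_sum]
  rw [sum_congr rfl fun c _ => by rw [hw k c], ← sum_mul]
  ring

theorem sum_range_cast (n : ℕ) : ∑ j ∈ range n, (j : ℝ) = n * (n - 1) / 2 := by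
  induction n with
  | zero => simp
  | succ n ih => rw [sum_range_succ, ih]; push_cast; ring

theorem sum_range_sq (n : ℕ) : ∑ j ∈ range n, (j : ℝ) ^ 2 ≤ n ^ 3 / 3 := by
  have h : ∑ j ∈ range n, (j : ℝ) ^ 2 = n * (n - 1) * (2 * n - 1) / 6 := by
    induction n with
    | zero => simp
    | succ n ih => rw [sum_range_succ, ih]; push_cast; ring
  rw [h]
  have hn : (0 : ℝ) ≤ n := by positivity
  rcases Nat.eq_zero_or_pos n with h0 | h0
  · subst h0; simp
  · have : (1 : ℝ) ≤ n := by exact_mod_cast h0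
    nlinarith

/-- `1` minus the upper corner -/
noncomputable def sv (N : ℕ) (c : Fin N) : ℝ := ((N : ℝ) - 1 - c) / N

theorem sum_refl (g : ℝ → ℝ) : ∑ c : Fin N, g (sv N c) = ∑ j ∈ range N, g ((j : ℝ) / N) := by
  unfold sv
  rw [Fin.sum_univ_eq_sum_range (fun c => g (((N : ℝ) - 1 - c) / N)) N,
    ← Finset.sum_range_reflect]
  apply sum_congr rfl
  intro j hj
  have := mem_range.mp hj
  rw [Nat.cast_sub (by omega), Nat.cast_sub (by omega)]
  congr 2
  push_cast
  ring

theorem sum_sv (hN : 1 ≤ N) : ∑ c : Fin N, sv N c = ((N : ℝ) - 1) / 2 := by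
  have hN' : (0 : ℝ) < N := by exact_mod_cast hN
  rw [sum_refl (fun x => x), ← sum_div, sum_range_cast]
  field_simp

theorem sum_sv_sq (hN : 1 ≤ N) : ∑ c : Fin N, sv N c ^ 2 ≤ (N : ℝ) / 3 := by
  have hN' : (0 : ℝ) < N := by exact_mod_cast hN
  rw [sum_refl (fun x => x ^ 2)]
  simp_rw [div_pow]
  rw [← sum_div, div_le_iff₀ (by positivity)]
  have := sum_range_sq N
  calc ∑ j ∈ range N, (j : ℝ) ^ 2 ≤ (N : ℝ) ^ 3 / 3 := this
    _ = _ := by ring

/-- the pair correlations -/
theorem corr {w : Cell N → ℝ} (hw : Unif w) (h0 : ∀ p, 0 ≤ w p) (hN : 1 ≤ N) :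
    5 / 8 - 9 / 4 / (N : ℝ) ≤
      ∑ i : Fin 3, ∑ p : Cell N, w p * ∏ l : Fin 2, (((N : ℝ) - 1 - p (i.succAbove l)) / N) := by
  have hN' : (0 : ℝ) < N := by exact_mod_cast hN
  have h1 : ∑ i : Fin 3, ∑ p : Cell N, w p * ∏ l : Fin 2, (((N : ℝ) - 1 - p (i.succAbove l)) / N) =
      ∑ p : Cell N, w p * (sv N (p 1) * sv N (p 2) + sv N (p 0) * sv N (p 2) +
        sv N (p 0) * sv N (p 1)) := by
    rw [sum_comm]
    apply sum_congr rfl
    intro p _
    rw [← mul_sum, Fin.sum_univ_three]
    simp only [Fin.prod_univ_two]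
    rfl
  rw [h1]
  have h2 : ∀ p : Cell N, w p * ((3 * (sv N (p 0) + sv N (p 1) + sv N (p 2)) - 9 / 4 -
      (sv N (p 0) ^ 2 + sv N (p 1) ^ 2 + sv N (p 2) ^ 2)) / 2) ≤
      w p * (sv N (p 1) * sv N (p 2) + sv N (p 0) * sv N (p 2) + sv N (p 0) * sv N (p 1)) := by
    intro p
    apply mul_le_mul_of_nonneg_left _ (h0 p)
    nlinarith [sq_nonneg (sv N (p 0) + sv N (p 1) + sv N (p 2) - 3 / 2)]
  refine le_trans ?_ (sum_le_sum fun p _ => h2 p)
  have h3 : ∑ p : Cell N, w p * ((3 * (sv N (p 0) + sv N (p 1) + sv N (p 2)) - 9 / 4 -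
      (sv N (p 0) ^ 2 + sv N (p 1) ^ 2 + sv N (p 2) ^ 2)) / 2) =
      3 / 2 * ((∑ p : Cell N, w p * sv N (p 0)) + (∑ p : Cell N, w p * sv N (p 1)) +
        ∑ p : Cell N, w p * sv N (p 2)) - 9 / 8 * (∑ p : Cell N, w p) -
      1 / 2 * ((∑ p : Cell N, w p * sv N (p 0) ^ 2) + (∑ p : Cell N, w p * sv N (p 1) ^ 2) +
        ∑ p : Cell N, w p * sv N (p 2) ^ 2) := by
    simp only [mul_sum, ← sum_add_distrib, ← sum_sub_distrib]
    apply sum_congr rfl
    intro p _
    ring
  rw [h3, mean_eq hw 0 (sv N), mean_eq hw 1 (sv N), mean_eq hw 2 (sv N),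
    mean_eq hw 0 (fun c => sv N c ^ 2), mean_eq hw 1 (fun c => sv N c ^ 2),
    mean_eq hw 2 (fun c => sv N c ^ 2), sum_total hw hN, sum_sv hN]
  have h4 : (∑ c : Fin N, sv N c ^ 2) / N ≤ 1 / 3 := by
    rw [div_le_iff₀ hN']
    have := sum_sv_sq hN
    linarith
  have h5 : ((N : ℝ) - 1) / 2 / N = 1 / 2 - 1 / 2 / N := by
    field_simp
  rw [h5]
  have h6 : (9 : ℝ) / 4 / N = 9 / 2 * (1 / 2 / N) := by ring
  rw [h6]
  linarith

theorem card_face (k : Fin 3) (a : Fin N) :
    ((univ.filter fun c : Cell N => c k = a).card : ℝ) = (N : ℝ) ^ 2 := by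
  have h1 : (univ.filter fun c : Cell N => c k = a) =
      Fintype.piFinset (fun l : Fin 3 => if l = k then {a} else univ) := by
    ext c
    simp only [mem_filter, mem_univ, true_and, Fintype.mem_piFinset]
    constructor
    · intro h l
      split_ifs with hl
      · rw [hl, h]; exact mem_singleton_self _
      · exact mem_univ _
    · intro h
      have := h k
      rwa [if_pos rfl, mem_singleton] at this
  rw [h1, Fintype.card_piFinset]
  push_cast
  rw [Fin.prod_univ_three]
  fin_cases k <;> simp <;> ring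

/-- the box above the upper corner of a cell -/
def bx (N : ℕ) (c : Cell N) : Set (Fin 3 → ℝ) :=
  Set.univ.pi fun k => Set.Ico (((c k : ℕ) + 1 : ℝ) / N) (((c k : ℕ) + 2 : ℝ) / N)

theorem volume_bx (hN : 1 ≤ N) (c : Cell N) : volume (bx N c) = ENNReal.ofReal ((1 / (N : ℝ)) ^ 3) := by
  have hN' : (0 : ℝ) < N := by exact_mod_cast hN
  unfold bx
  rw [volume_pi_pi]
  have : ∀ k, volume (Set.Ico (((c k : ℕ) + 1 : ℝ) / N) (((c k : ℕ) + 2 : ℝ) / N)) =
      ENNReal.ofReal (1 / N) := by
    intro k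
    rw [Real.volume_Ico]
    congr 1
    ring
  rw [prod_congr rfl fun k _ => this k, prod_const, card_univ, Fintype.card_fin,
    ENNReal.ofReal_pow (by positivity)]

theorem disjoint_bx (hN : 1 ≤ N) {c d : Cell N} (h : c ≠ d) : Disjoint (bx N c) (bx N d) := by
  have hN' : (0 : ℝ) < N := by exact_mod_cast hN
  rw [Set.disjoint_left]
  intro x hx hy
  apply h
  funext k
  have h1 := hx k (Set.mem_univ _)
  have h2 := hy k (Set.mem_univ _)
  obtain ⟨h3, h4⟩ := h1
  obtain ⟨h5, h6⟩ := h2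
  rw [div_le_iff₀ hN'] at h3 h5
  rw [lt_div_iff₀ hN'] at h4 h6
  apply Fin.ext
  have h7 : ((c k : ℕ) : ℝ) < (d k : ℕ) + 1 := by linarith
  have h8 : ((d k : ℕ) : ℝ) < (c k : ℕ) + 1 := by linarith
  have h9 : (c k : ℕ) < (d k : ℕ) + 1 := by exact_mod_cast h7
  have h10 : (d k : ℕ) < (c k : ℕ) + 1 := by exact_mod_cast h8
  omega

open Classical in
theorem cells_le {C : (Fin 3 → ℝ) → ℝ} (hC : IsCopula 3 C) (hN : 1 ≤ N) :
    (∑ c : Cell N, if 0 < C (gp N (fun k => (c k : ℕ) + 1)) then (1 / (N : ℝ)) ^ 3 else 0) ≤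
      (volume (posSet 3 C)).toReal + 3 / N := by
  have hN' : (0 : ℝ) < N := by exact_mod_cast hN
  set G := univ.filter fun c : Cell N =>
    0 < C (gp N (fun k => (c k : ℕ) + 1)) ∧ ∀ k, (c k : ℕ) + 1 < N with hG
  have h1 : (∑ c ∈ G, (1 / (N : ℝ)) ^ 3) ≤ (volume (posSet 3 C)).toReal := by
    have h2 : (⋃ c ∈ G, bx N c) ⊆ posSet 3 C := by
      intro x hx
      simp only [Set.mem_iUnion] at hx
      obtain ⟨c, hc, hx⟩ := hx
      rw [hG, mem_filter] at hc
      obtain ⟨-, hc1, hc2⟩ := hc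
      have hxk : ∀ k, ((c k : ℕ) + 1 : ℝ) / N ≤ x k ∧ x k < ((c k : ℕ) + 2 : ℝ) / N :=
        fun k => hx k (Set.mem_univ _)
      have hcube : x ∈ cube 3 := by
        intro k
        refine ⟨le_trans (by positivity) (hxk k).1, (hxk k).2.le.trans ?_⟩
        rw [div_le_one hN']
        have := hc2 k
        have : ((c k : ℕ) : ℝ) + 1 + 1 ≤ N := by exact_mod_cast this
        linarith
      refine ⟨hcube, lt_of_lt_of_le hc1 (copula_mono hC ?_ hcube ?_)⟩
      · exact gp_mem_cube hN fun k => (c k).isLt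
      · intro k
        unfold gp
        push_cast
        exact (hxk k).1
    have h3 := measure_mono (μ := volume) h2
    rw [measure_biUnion_finset (fun c _ d _ hcd => disjoint_bx hN hcd)
      (fun c _ => MeasurableSet.univ_pi fun k => measurableSet_Ico)] at h3
    rw [sum_congr rfl fun c _ => volume_bx hN c, ← ENNReal.ofReal_sum_of_nonneg
      (fun c _ => by positivity)] at h3
    exact (ENNReal.ofReal_le_iff_le_toReal (volume_posSet_ne_top C)).mp h3
  have hlast : N - 1 < N := by omega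
  set a : Fin N := ⟨N - 1, hlast⟩ with ha
  have h4 : (∑ c : Cell N, if 0 < C (gp N (fun k => (c k : ℕ) + 1)) then (1 / (N : ℝ)) ^ 3 else 0) ≤
      (∑ c ∈ G, (1 / (N : ℝ)) ^ 3) +
        ∑ k : Fin 3, ∑ c : Cell N, if c k = a then (1 / (N : ℝ)) ^ 3 else 0 := by
    rw [hG, sum_filter, sum_comm, ← sum_add_distrib]
    apply sum_le_sum
    intro c _
    have hpos : (0 : ℝ) ≤ (1 / (N : ℝ)) ^ 3 := by positivity
    have hsum : 0 ≤ ∑ k : Fin 3, if c k = a then (1 / (N : ℝ)) ^ 3 else 0 :=
      sum_nonneg fun k _ => by split_ifs <;> [exact hpos; exact le_rfl]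
    by_cases hc : 0 < C (gp N (fun k => (c k : ℕ) + 1))
    · rw [if_pos hc]
      by_cases hk : ∀ k, (c k : ℕ) + 1 < N
      · rw [if_pos ⟨hc, hk⟩]
        linarith
      · rw [if_neg (fun h => hk h.2)]
        push Not at hk
        obtain ⟨k, hk⟩ := hk
        have hka : c k = a := by
          apply Fin.ext
          have := (c k).isLt
          simp only [ha]
          omega
        rw [zero_add]
        refine le_trans ?_ (single_le_sum (f := fun k => if c k = a then (1 / (N : ℝ)) ^ 3 else 0)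
          (fun k _ => by split_ifs <;> [exact hpos; exact le_rfl]) (mem_univ k))
        simp only [if_pos hka, le_refl]
    · rw [if_neg hc]
      have : (0 : ℝ) ≤ if 0 < C (gp N (fun k => (c k : ℕ) + 1)) ∧ ∀ k, (c k : ℕ) + 1 < N
          then (1 / (N : ℝ)) ^ 3 else 0 := by split_ifs <;> [exact hpos; exact le_rfl]
      linarith
  have h5 : ∀ k : Fin 3, (∑ c : Cell N, if c k = a then (1 / (N : ℝ)) ^ 3 else (0 : ℝ)) =
      1 / (N : ℝ) := by
    intro k
    rw [← sum_filter, sum_const, nsmul_eq_mul, card_face]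
    field_simp
  have h7 : ∑ _k : Fin 3, 1 / (N : ℝ) = 3 / N := by
    rw [Fin.sum_univ_three]
    ring
  rw [sum_congr rfl fun k _ => h5 k, h7] at h4
  linarith

/-- a `3`-copula is positive on a set of volume at least `7/24` -/
theorem le_volume_posSet {C : (Fin 3 → ℝ) → ℝ} (hC : IsCopula 3 C) :
    7 / 24 ≤ (volume (posSet 3 C)).toReal := by
  classical
  have key : ∀ N : ℕ, 1 ≤ N → 7 / 24 - 21 / 4 / (N : ℝ) ≤ (volume (posSet 3 C)).toReal := by
    intro N hN
    have hN' : (0 : ℝ) < N := by exact_mod_cast hN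
    have h1 := sample (unif_wt hC hN) (wt_nonneg hC hN) hN
      (fun c : Cell N => 0 < C (gp N (fun k => (c k : ℕ) + 1))) (by
        intro p c hp hpc
        refine lt_of_lt_of_le hp ((mass_le (by norm_num) hC hN fun k => (p k).isLt).trans ?_)
        apply copula_mono hC (gp_mem_cube hN fun k => (p k).isLt)
          (gp_mem_cube hN fun k => (c k).isLt)
        intro k
        unfold gp
        apply div_le_div_of_nonneg_right _ hN'.le
        have := Fin.le_def.mp (hpc k)
        exact_mod_cast Nat.add_le_add_right this 1)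
    have h2 := corr (unif_wt hC hN) (wt_nonneg hC hN) hN
    have h3 := cells_le hC hN
    have h4 : (21 : ℝ) / 4 / N = 9 / 4 / N + 3 / N := by ring
    rw [h4]
    linarith
  by_contra hcon
  push Not at hcon
  obtain ⟨N, hN⟩ := exists_nat_gt (21 / 4 / (7 / 24 - (volume (posSet 3 C)).toReal))
  have hd : 0 < 7 / 24 - (volume (posSet 3 C)).toReal := by linarith
  have hN0 : (0 : ℝ) < N := lt_trans (by positivity) hN
  have hN1 : 1 ≤ N := by
    have : 0 < N := by exact_mod_cast hN0
    omega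
  have h1 := key N hN1
  rw [div_lt_iff₀ hd] at hN
  have h2 : 21 / 4 / (N : ℝ) < 7 / 24 - (volume (posSet 3 C)).toReal := by
    rw [div_lt_iff₀ hN0]
    linarith
  linarith

/-- `s_3 ≤ 7/8` -/
theorem three_upper : (maxAgreement 3).toReal ≤ 7 / 8 := by
  have h1 : maxAgreement 3 ≤ ENNReal.ofReal (7 / 8) := by
    unfold maxAgreement
    apply sSup_le
    rintro m ⟨A, hA, -, ⟨C, hC, hAC⟩, rfl⟩
    -- the set where the Frechet bound is positive
    set S : Set (Fin 3 → ℝ) := (fun x => (fun _ => 1) - x) ⁻¹' simplex 3 1 with hS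
    have hSvol : volume S ≤ ENNReal.ofReal (1 / 6) := by
      have h1 : volume S = volume (simplex 3 1) := by
        rw [hS]
        exact (Measure.measurePreserving_sub_left volume (fun _ : Fin 3 => (1 : ℝ))).measure_preimage
          (measurableSet_simplex 3 1).nullMeasurableSet
      rw [h1]
      have := volume_simplex 3 1 zero_le_one
      norm_num [Nat.factorial] at this ⊢
      exact this
    have hsub : A ⊆ (cube 3 \ posSet 3 C) ∪ S := by
      intro x hx
      by_cases hpos : 0 < C x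
      · right
        have h1 := hAC x hx
        rw [h1] at hpos
        unfold lowerFrechet at hpos
        have h2 : 0 < ∑ k, x k - (3 : ℕ) + 1 := by
          by_contra hc
          push Not at hc
          rw [max_eq_right hc] at hpos
          exact lt_irrefl _ hpos
        refine ⟨fun k => ?_, ?_⟩
        · have := (hA hx k).2
          simpa using this
        · simp only [Pi.sub_apply, sum_sub_distrib]
          simp
          push_cast at h2
          linarith
      · left
        exact ⟨hA hx, fun h => hpos h.2⟩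
    have h1 : volume (cube 3 \ posSet 3 C) ≤ ENNReal.ofReal (1 - 7 / 24) := by
      rw [measure_sdiff (posSet_subset C) (measurableSet_posSet hC).nullMeasurableSet
        (volume_posSet_ne_top C), volume_cube, ENNReal.ofReal_sub _ (by norm_num),
        ENNReal.ofReal_one]
      apply tsub_le_tsub_left
      rw [← ENNReal.ofReal_toReal (volume_posSet_ne_top C)]
      exact ENNReal.ofReal_le_ofReal (le_volume_posSet hC)
    calc volume A ≤ volume ((cube 3 \ posSet 3 C) ∪ S) := measure_mono hsub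
      _ ≤ volume (cube 3 \ posSet 3 C) + volume S := measure_union_le _ _
      _ ≤ ENNReal.ofReal (1 - 7 / 24) + ENNReal.ofReal (1 / 6) := add_le_add h1 hSvol
      _ = _ := by
          rw [← ENNReal.ofReal_add (by norm_num) (by norm_num)]
          norm_num
  have h2 := ENNReal.toReal_mono ENNReal.ofReal_ne_top h1
  rwa [ENNReal.toReal_ofReal (by norm_num)] at h2

end Pool.Agent.H54Cop
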