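import Pool.Agent.H54Cop.Upper

/-! The upper half of the agreement set (helper82): a cell with mass above two of the three lower corners. -/

set_option autoImplicit false

namespace Pool.Agent.H54Cop

open MeasureTheory Finset Pool.Agent.Helper43.Copula Pool.Agent.Helper3.Cop

variable {N : ℕ}

open Classical in
/-- the value of a copula at a grid point as a sum over the cells -/
theorem grid_value {C : (Fin 3 → ℝ) → ℝ} (hC : IsCopula 3 C) (hN : 1 ≤ N) (c : Cell N) :
    C (gp N (fun k => (c k : ℕ))) = ∑ p : Cell N, if ∀ k, p k < c k then wt C N p else 0 := by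
  have h1 := sum_mass_le (by norm_num : 1 ≤ 3) hC hN (b := fun k => (c k : ℕ)) (fun k => (c k).isLt.le)
  rw [← h1]
  have h2 := sum_cell_eq (N := N) (fun j : Fin 3 → ℕ => if ∀ k, j k < (c k : ℕ) then mass C N j else 0)
  have h3 : ∑ p : Cell N, (if ∀ k, p k < c k then wt C N p else 0) =
      ∑ p : Cell N, (fun j : Fin 3 → ℕ => if ∀ k, j k < (c k : ℕ) then mass C N j else 0) (fun k => (p k : ℕ)) := by
    apply sum_congr rfl
    intro p _
    simp only [wt, Fin.lt_def]
  rw [h3, h2, ← sum_filter]
  apply sum_congr _ fun _ _ => rfl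
  ext j
  simp only [Fintype.mem_piFinset, mem_filter, mem_range, mem_Ico]
  constructor
  · intro h
    exact ⟨fun k => (h k).2.trans (c k).isLt, fun k => (h k).2⟩
  · rintro ⟨-, h⟩ k
    exact ⟨Nat.zero_le _, h k⟩

theorem sum_ge {w : Cell N → ℝ} (hw : Unif w) (hN : 1 ≤ N) (k : Fin 3) (a : Fin N) :
    ∑ q : Cell N, (if a ≤ q k then w q else 0) = 1 - (a : ℝ) / N := by
  have hN' : (0 : ℝ) < N := by exact_mod_cast hN
  have h1 : ∀ q : Cell N, (if a ≤ q k then w q else 0) = (if a < q k then w q else 0) + (if q k = a then w q else 0) := by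
    intro q
    rcases lt_trichotomy a (q k) with h | h | h
    · rw [if_pos h.le, if_pos h, if_neg h.ne', add_zero]
    · rw [if_pos h.le, if_neg (by rw [h]; exact lt_irrefl _), if_pos h.symm, zero_add]
    · rw [if_neg (not_le.2 h), if_neg (not_lt.2 h.le), if_neg h.ne, add_zero]
  rw [sum_congr rfl fun q _ => h1 q, sum_add_distrib, sum_gt hw k a, hw k a]
  field_simp
  ring

open Classical in
/-- the upper half -/
theorem vhalf82 {C : (Fin 3 → ℝ) → ℝ} (hC : IsCopula 3 C) (hN : 1 ≤ N) {x : Fin 3 → ℝ} (hx : x ∈ cube 3)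
    {c p : Cell N} (hxc : ∀ k, x k ≤ gp N (fun k => (c k : ℕ)) k) {i k : Fin 3} (hik : i ≠ k) (hi : c i ≤ p i)
    (hk : c k ≤ p k) : ∑ j, x j - 2 + wt C N p ≤ C x := by
  have hN' : (0 : ℝ) < N := by exact_mod_cast hN
  set g := gp N (fun k => (c k : ℕ)) with hg
  have hgc : g ∈ cube 3 := gp_mem_cube hN fun k => (c k).isLt.le
  have h1 := grid_value hC hN c
  rw [← hg] at h1
  have h2 : ∀ j : Fin 3, ∑ q : Cell N, (if c j ≤ q j then wt C N q else 0) = 1 - g j := by
    intro j
    rw [sum_ge (unif_wt hC hN) hN j (c j), hg]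
    rfl
  have h3 := sum_total (unif_wt hC hN) hN
  have h4 : ∑ q : Cell N, (if q = p then wt C N q else 0) = wt C N p := by
    rw [sum_ite_eq' univ p]
    simp
  have h5 : ∑ q : Cell N, (if q = p then wt C N q else 0) ≤
      (∑ q : Cell N, if ∀ k, q k < c k then wt C N q else 0) +
        (∑ j : Fin 3, ∑ q : Cell N, (if c j ≤ q j then wt C N q else 0)) - ∑ q : Cell N, wt C N q := by
    rw [sum_comm, ← sum_add_distrib, ← sum_sub_distrib]
    apply sum_le_sum
    intro q _
    have hq := wt_nonneg hC hN q
    rw [Fin.sum_univ_three]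
    by_cases hall : ∀ k, q k < c k
    · have hne : q ≠ p := by
        rintro rfl
        exact absurd (hall i) (not_lt.2 hi)
      rw [if_neg hne, if_pos hall, if_neg (not_le.2 (hall 0)), if_neg (not_le.2 (hall 1)), if_neg (not_le.2 (hall 2))]
      linarith
    · rw [if_neg hall]
      have hnn : ∀ j : Fin 3, 0 ≤ (if c j ≤ q j then wt C N q else 0) := fun j => by
        split_ifs <;> [exact hq; exact le_rfl]
      by_cases hqp : q = p
      · subst hqp
        rw [if_pos rfl]
        have e1 : (if c i ≤ q i then wt C N q else 0) = wt C N q := if_pos hi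
        have e2 : (if c k ≤ q k then wt C N q else 0) = wt C N q := if_pos hk
        have hsum : (if c i ≤ q i then wt C N q else 0) + (if c k ≤ q k then wt C N q else 0) ≤
            (if c 0 ≤ q 0 then wt C N q else 0) + (if c 1 ≤ q 1 then wt C N q else 0) +
              (if c 2 ≤ q 2 then wt C N q else 0) := by
          have := sum_le_univ_sum_of_nonneg (s := ({i, k} : Finset (Fin 3))) hnn
          rw [sum_pair hik, Fin.sum_univ_three] at this
          exact this
        linarith
      · rw [if_neg hqp]
        push Not at hall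
        obtain ⟨j, hj⟩ := hall
        have e1 : (if c j ≤ q j then wt C N q else 0) = wt C N q := if_pos hj
        have hsum : (if c j ≤ q j then wt C N q else 0) ≤
            (if c 0 ≤ q 0 then wt C N q else 0) + (if c 1 ≤ q 1 then wt C N q else 0) +
              (if c 2 ≤ q 2 then wt C N q else 0) := by
          have := single_le_sum (f := fun j : Fin 3 => if c j ≤ q j then wt C N q else 0) (fun j _ => hnn j)
            (mem_univ j)
          rw [Fin.sum_univ_three] at this
          exact this
        linarith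
  rw [h4, ← h1, sum_congr rfl fun j _ => h2 j, h3] at h5
  have h6 := lip hC hgc hx
  have h7 : ∑ j, |g j - x j| = ∑ j, g j - ∑ j, x j := by
    rw [← sum_sub_distrib]
    exact sum_congr rfl fun j _ => abs_of_nonneg (sub_nonneg.2 (hxc j))
  rw [h7] at h6
  have h8 := (abs_le.1 h6).2
  rw [sum_sub_distrib] at h5
  simp only [sum_const, card_univ, Fintype.card_fin, nsmul_eq_mul] at h5
  norm_num at h5
  linarith

end Pool.Agent.H54Cop
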